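import Pool.Agent.Lib_helper44.G34.Ftc
import Pool.Agent.Lib_helper32.TF.INE

/-!
# (K*), part (L1c): product eigenbases and the sign rule
-/

set_option autoImplicit false

open scoped BigOperators ComplexOrder Kronecker MatrixOrder Topology
open MeasureTheory Set Matrix Filter

namespace Pool.Agent.Lib_helper28.KS

open Pool.Agent.RC

variable {ι κ : Type} [Fintype ι] [DecidableEq ι] [Fintype κ] [DecidableEq κ]

/-- the statement of (L1b), taken as a hypothesis -/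
def Al (p : ℝ) : Prop :=
  ∀ (k : Type) [Fintype k] [DecidableEq k] (X F H : Matrix k k ℂ), X.IsHermitian →
    Fᴴ * F = 1 → Hᴴ * H = 1 → ∀ r s : k → ℝ, (∀ i, 0 ≤ r i) → (∀ j, 0 ≤ s j) →
    (∀ i j, 0 < r i → 0 < s j → ((Fᴴ * H) i j * (Hᴴ * X * F) j i).re ≤ 0) →
    ∑ i, (p * r i ^ (p - 1) * ((Fᴴ * X * F) i i).re - (p - 1) * r i ^ p) +
      ∑ j, (p * s j ^ (p - 1) * ((Hᴴ * X * H) j j).re - (p - 1) * s j ^ p) ≤
    trF (INE.pp p) X

/-! ### scalar facts -/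

theorem mx_mul_mx {a b : ℝ} (h : 0 < max a 0 * max b 0) : 0 < a ∧ 0 < b := by
  have h1 : 0 < max a 0 := by
    rcases lt_or_eq_of_le (le_max_right a 0) with h1 | h1
    · exact h1
    · rw [← h1, zero_mul] at h
      exact absurd h (lt_irrefl _)
  have h2 : 0 < max b 0 := by
    rcases lt_or_eq_of_le (le_max_right b 0) with h2 | h2
    · exact h2
    · rw [← h2, mul_zero] at h
      exact absurd h (lt_irrefl _)
  constructor
  · rcases max_cases a 0 with h3 | h3 <;> linarith [h3.1, h3.2]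
  · rcases max_cases b 0 with h3 | h3 <;> linarith [h3.1, h3.2]

theorem mx_pow_mul {p : ℝ} (hp : 1 < p) (a : ℝ) :
    (max a 0) ^ (p - 1) * a = (max a 0) ^ p := by
  rcases le_or_gt a 0 with h | h
  · rw [max_eq_right h, Real.zero_rpow (by linarith), Real.zero_rpow (by linarith), zero_mul]
  · rw [max_eq_left h.le]
    nth_rewrite 2 [show a = a ^ (1 : ℝ) from (Real.rpow_one a).symm]
    rw [← Real.rpow_add h]
    congr 1
    ring

/-- one summand -/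
theorem term_eq {p : ℝ} (hp : 1 < p) (a b T x y : ℝ) :
    p * (max a 0 * max b 0) ^ (p - 1) * (a * b - T * (x * y)) -
      (p - 1) * (max a 0 * max b 0) ^ p =
    (max a 0) ^ p * (max b 0) ^ p -
      p * T * (((max a 0) ^ (p - 1) * x) * ((max b 0) ^ (p - 1) * y)) := by
  have ha : 0 ≤ max a 0 := le_max_right _ _
  have hb : 0 ≤ max b 0 := le_max_right _ _
  rw [Real.mul_rpow ha hb, Real.mul_rpow ha hb]
  have h1 := mx_pow_mul hp a
  have h2 := mx_pow_mul hp b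
  have h3 : (max a 0) ^ (p - 1) * (max b 0) ^ (p - 1) * (a * b) =
      (max a 0) ^ p * (max b 0) ^ p := by
    rw [← h1, ← h2]; ring
  linear_combination p * h3

/-- the sign rule, scalar part -/
theorem sign_scalar {z l l' n n' : ℝ} (hz : 0 < z) (hl : 0 < l) (hl' : 0 < l') (hn : 0 < n)
    (hn' : 0 < n') :
    l * l' - ((1 + 2 * z) * l + n) * ((1 + 2 * z) * l' + n') / (4 * (z * (1 + z))) ≤ 0 := by
  have hT : 0 < 4 * (z * (1 + z)) := by positivity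
  rw [sub_nonpos, le_div_iff₀ hT]
  have h1 : 0 < l * l' := mul_pos hl hl'
  have h2 : 0 < l * n' := mul_pos hl hn'
  have h3 : 0 < n * l' := mul_pos hn hl'
  have h4 : 0 < n * n' := mul_pos hn hn'
  nlinarith [mul_pos hz h2, mul_pos hz h3]


/-! ### eigenbases -/

/-- diagonal entries of a conjugated hermitian matrix are real -/
theorem diag_im {U N : Matrix ι ι ℂ} (hN : N.IsHermitian) (i : ι) :
    ((Uᴴ * N * U) i i).im = 0 := by
  have h : (Uᴴ * N * U).IsHermitian := Matrix.isHermitian_conjTranspose_mul_mul U hN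
  have h1 := h.apply i i
  rw [RCLike.star_def] at h1
  exact Complex.conj_eq_iff_im.1 h1

theorem re_mul_of_im {a b : ℂ} (ha : a.im = 0) : (a * b).re = a.re * b.re := by
  rw [Complex.mul_re, ha]; ring

/-- spectral data of a hermitian matrix -/
theorem spec {P : Matrix ι ι ℂ} (hP : P.IsHermitian) :
    (hP.eigenvectorUnitary : Matrix ι ι ℂ)ᴴ * (hP.eigenvectorUnitary : Matrix ι ι ℂ) = 1 ∧
    P * (hP.eigenvectorUnitary : Matrix ι ι ℂ) =
      (hP.eigenvectorUnitary : Matrix ι ι ℂ) * diagonal (fun i => ((hP.eigenvalues i : ℝ) : ℂ)) ∧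
    (hP.eigenvectorUnitary : Matrix ι ι ℂ)ᴴ * P =
      diagonal (fun i => ((hP.eigenvalues i : ℝ) : ℂ)) *
        (hP.eigenvectorUnitary : Matrix ι ι ℂ)ᴴ ∧
    (hP.eigenvectorUnitary : Matrix ι ι ℂ)ᴴ * P * (hP.eigenvectorUnitary : Matrix ι ι ℂ) =
      diagonal (fun i => ((hP.eigenvalues i : ℝ) : ℂ)) := by
  set U : Matrix ι ι ℂ := (hP.eigenvectorUnitary : Matrix ι ι ℂ) with hU
  have h1 : Uᴴ * U = 1 := (mem_unitaryGroup_iff').1 hP.eigenvectorUnitary.2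
  have h2 : P = U * diagonal (fun i => ((hP.eigenvalues i : ℝ) : ℂ)) * Uᴴ := by
    have := Pool.Agent.Lib_helper44.G34.cfc_spec hP id
    rw [cfc_id ℝ P (ha := hP.isSelfAdjoint)] at this
    exact this
  have h3 : P * U = U * diagonal (fun i => ((hP.eigenvalues i : ℝ) : ℂ)) := by
    nth_rewrite 1 [h2]
    rw [Matrix.mul_assoc, h1, Matrix.mul_one]
  have h4 : Uᴴ * P = diagonal (fun i => ((hP.eigenvalues i : ℝ) : ℂ)) * Uᴴ := by
    nth_rewrite 1 [h2]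
    rw [← Matrix.mul_assoc, ← Matrix.mul_assoc, h1, Matrix.one_mul]
  refine ⟨h1, h3, h4, ?_⟩
  rw [h4, Matrix.mul_assoc, h1, Matrix.mul_one]

/-- `Tr g(P) N` in the eigenbasis -/
theorem trace_cfc_mul (g : ℝ → ℝ) {P : Matrix ι ι ℂ} (hP : P.IsHermitian) (N : Matrix ι ι ℂ) :
    ((cfc g P * N).trace).re = ∑ i, g (hP.eigenvalues i) *
      (((hP.eigenvectorUnitary : Matrix ι ι ℂ)ᴴ * N *
        (hP.eigenvectorUnitary : Matrix ι ι ℂ)) i i).re := by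
  rw [Pool.Agent.Lib_helper44.G34.cfc_spec hP]
  set U : Matrix ι ι ℂ := (hP.eigenvectorUnitary : Matrix ι ι ℂ) with hU
  have e : (U * diagonal (fun i => ((g (hP.eigenvalues i) : ℝ) : ℂ)) * Uᴴ * N).trace =
      (diagonal (fun i => ((g (hP.eigenvalues i) : ℝ) : ℂ)) * (Uᴴ * N * U)).trace := by
    rw [Matrix.mul_assoc, Matrix.mul_assoc, Matrix.trace_mul_comm, Matrix.mul_assoc]
  rw [e, Matrix.trace, Complex.re_sum]
  apply Finset.sum_congr rfl
  intro i _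
  rw [Matrix.diag_apply, Matrix.diagonal_mul, Complex.re_ofReal_mul]

/-! ### Kronecker products -/

theorem kron_one {U : Matrix ι ι ℂ} {U' : Matrix κ κ ℂ} (h : Uᴴ * U = 1) (h' : U'ᴴ * U' = 1) :
    (U ⊗ₖ U')ᴴ * (U ⊗ₖ U') = 1 := by
  rw [Matrix.conjTranspose_kronecker, ← Matrix.mul_kronecker_mul, h, h',
    Matrix.one_kronecker_one]

theorem kron_conj (c : ℂ) (W P N U : Matrix ι ι ℂ) (W' P' N' U' : Matrix κ κ ℂ) :
    (W ⊗ₖ W')ᴴ * (P ⊗ₖ P' - c • (N ⊗ₖ N')) * (U ⊗ₖ U') =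
      (Wᴴ * P * U) ⊗ₖ (W'ᴴ * P' * U') - c • ((Wᴴ * N * U) ⊗ₖ (W'ᴴ * N' * U')) := by
  rw [Matrix.conjTranspose_kronecker, Matrix.mul_sub, Matrix.sub_mul, Matrix.mul_smul,
    Matrix.smul_mul, ← Matrix.mul_kronecker_mul, ← Matrix.mul_kronecker_mul,
    ← Matrix.mul_kronecker_mul, ← Matrix.mul_kronecker_mul]

theorem X_eq_P (A D : Matrix ι ι ℂ) (A' D' : Matrix κ κ ℂ) (z : ℝ) :
    D ⊗ₖ D' - (z : ℂ) • (A ⊗ₖ A' - D ⊗ₖ D') =
      (D - (z : ℂ) • (A - D)) ⊗ₖ (D' - (z : ℂ) • (A' - D')) -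
        ((z * (1 + z) : ℝ) : ℂ) • ((A - D) ⊗ₖ (A' - D')) := by
  ext ⟨i, k⟩ ⟨j, l⟩
  simp only [Matrix.sub_apply, Matrix.smul_apply, Matrix.kroneckerMap_apply, smul_eq_mul]
  push_cast
  ring

theorem X_eq_Q (A D : Matrix ι ι ℂ) (A' D' : Matrix κ κ ℂ) (z : ℝ) :
    D ⊗ₖ D' - (z : ℂ) • (A ⊗ₖ A' - D ⊗ₖ D') =
      (-D - (z : ℂ) • (A + D)) ⊗ₖ (-D' - (z : ℂ) • (A' + D')) -
        ((z * (1 + z) : ℝ) : ℂ) • ((A + D) ⊗ₖ (A' + D')) := by
  ext ⟨i, k⟩ ⟨j, l⟩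
  simp only [Matrix.sub_apply, Matrix.add_apply, Matrix.neg_apply, Matrix.smul_apply,
    Matrix.kroneckerMap_apply, smul_eq_mul]
  push_cast
  ring

/-- a diagonal entry in the product eigenbasis -/
theorem diag_entry {P N : Matrix ι ι ℂ} {P' N' : Matrix κ κ ℂ} (hP : P.IsHermitian)
    (hP' : P'.IsHermitian) (hN : N.IsHermitian) (c : ℝ) (i : ι) (k : κ) :
    ((((hP.eigenvectorUnitary : Matrix ι ι ℂ) ⊗ₖ (hP'.eigenvectorUnitary : Matrix κ κ ℂ))ᴴ *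
      (P ⊗ₖ P' - (c : ℂ) • (N ⊗ₖ N')) *
      ((hP.eigenvectorUnitary : Matrix ι ι ℂ) ⊗ₖ (hP'.eigenvectorUnitary : Matrix κ κ ℂ)))
        (i, k) (i, k)).re =
    hP.eigenvalues i * hP'.eigenvalues k - c *
      ((((hP.eigenvectorUnitary : Matrix ι ι ℂ)ᴴ * N *
        (hP.eigenvectorUnitary : Matrix ι ι ℂ)) i i).re *
      (((hP'.eigenvectorUnitary : Matrix κ κ ℂ)ᴴ * N' *
        (hP'.eigenvectorUnitary : Matrix κ κ ℂ)) k k).re) := by
  rw [kron_conj, (spec hP).2.2.2, (spec hP').2.2.2, Matrix.sub_apply, Matrix.smul_apply,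
    Matrix.kroneckerMap_apply, Matrix.kroneckerMap_apply]
  show (diagonal (fun i => ((hP.eigenvalues i : ℝ) : ℂ)) i i *
    diagonal (fun i => ((hP'.eigenvalues i : ℝ) : ℂ)) k k - (c : ℂ) *
      ((((hP.eigenvectorUnitary : Matrix ι ι ℂ)ᴴ * N *
        (hP.eigenvectorUnitary : Matrix ι ι ℂ)) i i) *
      (((hP'.eigenvectorUnitary : Matrix κ κ ℂ)ᴴ * N' *
        (hP'.eigenvectorUnitary : Matrix κ κ ℂ)) k k))).re = _
  rw [Matrix.diagonal_apply_eq, Matrix.diagonal_apply_eq, Complex.sub_re, ← Complex.ofReal_mul,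
    Complex.ofReal_re, Complex.re_ofReal_mul, re_mul_of_im (diag_im hN i)]

/-- the sum over the product eigenbasis -/
theorem sum_entries {p : ℝ} (hp : 1 < p) {P N : Matrix ι ι ℂ} {P' N' : Matrix κ κ ℂ}
    (hP : P.IsHermitian) (hP' : P'.IsHermitian) (hN : N.IsHermitian) (c : ℝ) :
    ∑ x : ι × κ, (p * (max (hP.eigenvalues x.1) 0 * max (hP'.eigenvalues x.2) 0) ^ (p - 1) *
      ((((hP.eigenvectorUnitary : Matrix ι ι ℂ) ⊗ₖ (hP'.eigenvectorUnitary : Matrix κ κ ℂ))ᴴ *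
      (P ⊗ₖ P' - (c : ℂ) • (N ⊗ₖ N')) *
      ((hP.eigenvectorUnitary : Matrix ι ι ℂ) ⊗ₖ (hP'.eigenvectorUnitary : Matrix κ κ ℂ)))
        x x).re - (p - 1) * (max (hP.eigenvalues x.1) 0 * max (hP'.eigenvalues x.2) 0) ^ p) =
    trF (INE.pp p) P * trF (INE.pp p) P' -
      p * c * (((cfc (fun x : ℝ => (max x 0) ^ (p - 1)) P * N).trace).re *
        ((cfc (fun x : ℝ => (max x 0) ^ (p - 1)) P' * N').trace).re) := by
  rw [trace_cfc_mul _ hP, trace_cfc_mul _ hP']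
  have e1 : trF (INE.pp p) P = ∑ i, (max (hP.eigenvalues i) 0) ^ p := by
    unfold trF
    rw [dif_pos hP]
    rfl
  have e2 : trF (INE.pp p) P' = ∑ i, (max (hP'.eigenvalues i) 0) ^ p := by
    unfold trF
    rw [dif_pos hP']
    rfl
  rw [e1, e2, Finset.sum_mul_sum, Finset.sum_mul_sum, Fintype.sum_prod_type, Finset.mul_sum,
    ← Finset.sum_sub_distrib]
  apply Finset.sum_congr rfl
  intro i _
  rw [Finset.mul_sum, ← Finset.sum_sub_distrib]
  apply Finset.sum_congr rfl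
  intro k _
  rw [diag_entry hP hP' hN c i k]
  exact term_eq hp _ _ _ _ _

/-! ### the sign rule -/

/-- `-2z(1+z) (Wᴴ N U)_{ji} = ((1+2z) l_i + n_j) (Wᴴ U)_{ji}` -/
theorem cross_N {P Q N : Matrix ι ι ℂ} (hP : P.IsHermitian) (hQ : Q.IsHermitian) {z : ℝ}
    (h : ((1 + 2 * z : ℝ) : ℂ) • P + Q = -(((2 * (z * (1 + z)) : ℝ) : ℂ) • N)) (j i : ι) :
    -(((2 * (z * (1 + z)) : ℝ) : ℂ) * ((hQ.eigenvectorUnitary : Matrix ι ι ℂ)ᴴ * N *
      (hP.eigenvectorUnitary : Matrix ι ι ℂ)) j i) =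
    (((1 + 2 * z) * hP.eigenvalues i + hQ.eigenvalues j : ℝ) : ℂ) *
      ((hQ.eigenvectorUnitary : Matrix ι ι ℂ)ᴴ * (hP.eigenvectorUnitary : Matrix ι ι ℂ)) j i := by
  set U : Matrix ι ι ℂ := (hP.eigenvectorUnitary : Matrix ι ι ℂ) with hU
  set W : Matrix ι ι ℂ := (hQ.eigenvectorUnitary : Matrix ι ι ℂ) with hW
  have h1 : P * U = U * diagonal (fun i => ((hP.eigenvalues i : ℝ) : ℂ)) := (spec hP).2.1
  have h2 : Wᴴ * Q = diagonal (fun i => ((hQ.eigenvalues i : ℝ) : ℂ)) * Wᴴ := (spec hQ).2.2.1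
  have h3 : Wᴴ * (((1 + 2 * z : ℝ) : ℂ) • P + Q) * U =
      ((1 + 2 * z : ℝ) : ℂ) • ((Wᴴ * U) * diagonal (fun i => ((hP.eigenvalues i : ℝ) : ℂ))) +
        diagonal (fun i => ((hQ.eigenvalues i : ℝ) : ℂ)) * (Wᴴ * U) := by
    rw [Matrix.mul_add, Matrix.add_mul, h2, Matrix.mul_smul, Matrix.smul_mul, Matrix.mul_assoc Wᴴ,
      h1, Matrix.mul_assoc, ← Matrix.mul_assoc Wᴴ]
  have h4 : Wᴴ * (-(((2 * (z * (1 + z)) : ℝ) : ℂ) • N)) * U =
      -(((2 * (z * (1 + z)) : ℝ) : ℂ) • (Wᴴ * N * U)) := by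
    rw [Matrix.mul_neg, Matrix.neg_mul, Matrix.mul_smul, Matrix.smul_mul]
  have h5 := h3.symm.trans ((congrArg (fun Y => Wᴴ * Y * U) h).trans h4)
  have h6 := congrFun (congrFun h5 j) i
  rw [Matrix.add_apply, Matrix.smul_apply, Matrix.mul_diagonal, Matrix.diagonal_mul,
    Matrix.neg_apply, Matrix.smul_apply, smul_eq_mul, smul_eq_mul] at h6
  rw [← h6]
  push_cast
  ring

/-- `(Wᴴ P U)_{ji} = l_i (Wᴴ U)_{ji}` -/
theorem cross_P {P : Matrix ι ι ℂ} (hP : P.IsHermitian) (W : Matrix ι ι ℂ) (j i : ι) :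
    (Wᴴ * P * (hP.eigenvectorUnitary : Matrix ι ι ℂ)) j i =
      (hP.eigenvalues i : ℂ) * (Wᴴ * (hP.eigenvectorUnitary : Matrix ι ι ℂ)) j i := by
  rw [Matrix.mul_assoc, (spec hP).2.1, ← Matrix.mul_assoc, Matrix.mul_diagonal, mul_comm]

theorem conj_entry (U W : Matrix ι ι ℂ) (i j : ι) :
    (Uᴴ * W) i j = (starRingEnd ℂ) ((Wᴴ * U) j i) := by
  have : Uᴴ * W = (Wᴴ * U)ᴴ := by
    rw [Matrix.conjTranspose_mul, Matrix.conjTranspose_conjTranspose]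
  rw [this, Matrix.conjTranspose_apply]
  rfl

/-- the sign rule in the product eigenbases -/
theorem sign_rule {P Q N : Matrix ι ι ℂ} {P' Q' N' : Matrix κ κ ℂ} (hP : P.IsHermitian)
    (hQ : Q.IsHermitian) (hP' : P'.IsHermitian) (hQ' : Q'.IsHermitian) {z : ℝ} (hz : 0 ≤ z)
    (h : ((1 + 2 * z : ℝ) : ℂ) • P + Q = -(((2 * (z * (1 + z)) : ℝ) : ℂ) • N))
    (h' : ((1 + 2 * z : ℝ) : ℂ) • P' + Q' = -(((2 * (z * (1 + z)) : ℝ) : ℂ) • N'))
    (i j : ι) (k l : κ) (hi : 0 < hP.eigenvalues i) (hk : 0 < hP'.eigenvalues k)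
    (hj : 0 < hQ.eigenvalues j) (hl : 0 < hQ'.eigenvalues l) :
    ((((hP.eigenvectorUnitary : Matrix ι ι ℂ) ⊗ₖ (hP'.eigenvectorUnitary : Matrix κ κ ℂ))ᴴ *
      ((hQ.eigenvectorUnitary : Matrix ι ι ℂ) ⊗ₖ (hQ'.eigenvectorUnitary : Matrix κ κ ℂ)))
        (i, k) (j, l) *
      (((hQ.eigenvectorUnitary : Matrix ι ι ℂ) ⊗ₖ (hQ'.eigenvectorUnitary : Matrix κ κ ℂ))ᴴ *
      (P ⊗ₖ P' - ((z * (1 + z) : ℝ) : ℂ) • (N ⊗ₖ N')) *
      ((hP.eigenvectorUnitary : Matrix ι ι ℂ) ⊗ₖ (hP'.eigenvectorUnitary : Matrix κ κ ℂ)))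
        (j, l) (i, k)).re ≤ 0 := by
  rw [kron_conj, Matrix.conjTranspose_kronecker, ← Matrix.mul_kronecker_mul, Matrix.sub_apply,
    Matrix.smul_apply, Matrix.kroneckerMap_apply, Matrix.kroneckerMap_apply,
    Matrix.kroneckerMap_apply]
  show ((((hP.eigenvectorUnitary : Matrix ι ι ℂ)ᴴ * (hQ.eigenvectorUnitary : Matrix ι ι ℂ)) i j *
      ((hP'.eigenvectorUnitary : Matrix κ κ ℂ)ᴴ * (hQ'.eigenvectorUnitary : Matrix κ κ ℂ)) k l) *
    ((((hQ.eigenvectorUnitary : Matrix ι ι ℂ)ᴴ * P * (hP.eigenvectorUnitary : Matrix ι ι ℂ)) j i) *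
      (((hQ'.eigenvectorUnitary : Matrix κ κ ℂ)ᴴ * P' *
        (hP'.eigenvectorUnitary : Matrix κ κ ℂ)) l k) -
      ((z * (1 + z) : ℝ) : ℂ) *
      ((((hQ.eigenvectorUnitary : Matrix ι ι ℂ)ᴴ * N *
        (hP.eigenvectorUnitary : Matrix ι ι ℂ)) j i) *
      (((hQ'.eigenvectorUnitary : Matrix κ κ ℂ)ᴴ * N' *
        (hP'.eigenvectorUnitary : Matrix κ κ ℂ)) l k)))).re ≤ 0
  have c1 := cross_N hP hQ h j i
  have c2 := cross_N hP' hQ' h' l k
  rw [cross_P hP, cross_P hP', conj_entry _ _ i j, conj_entry _ _ k l]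
  set d : ℂ := ((hQ.eigenvectorUnitary : Matrix ι ι ℂ)ᴴ *
    (hP.eigenvectorUnitary : Matrix ι ι ℂ)) j i with hd
  set d' : ℂ := ((hQ'.eigenvectorUnitary : Matrix κ κ ℂ)ᴴ *
    (hP'.eigenvectorUnitary : Matrix κ κ ℂ)) l k with hd'
  set e : ℂ := ((hQ.eigenvectorUnitary : Matrix ι ι ℂ)ᴴ * N *
    (hP.eigenvectorUnitary : Matrix ι ι ℂ)) j i with he
  set e' : ℂ := ((hQ'.eigenvectorUnitary : Matrix κ κ ℂ)ᴴ * N' *
    (hP'.eigenvectorUnitary : Matrix κ κ ℂ)) l k with he'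
  rcases hz.eq_or_lt with h0 | h0
  · subst h0
    have c3 : d = 0 := by
      have h7 : (((1 + 2 * 0) * hP.eigenvalues i + hQ.eigenvalues j : ℝ) : ℂ) ≠ 0 := by
        rw [Complex.ofReal_ne_zero]
        nlinarith
      have h8 : (((1 + 2 * 0) * hP.eigenvalues i + hQ.eigenvalues j : ℝ) : ℂ) * d = 0 := by
        rw [← c1]
        simp
      exact (mul_eq_zero.1 h8).resolve_left h7
    rw [c3]
    simp
  · set T : ℝ := z * (1 + z) with hT
    have hT0 : 0 < T := by positivity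
    have hTC : (T : ℂ) ≠ 0 := by exact_mod_cast hT0.ne'
    have e1 : e = -((((1 + 2 * z) * hP.eigenvalues i + hQ.eigenvalues j : ℝ) : ℂ) * d /
        ((2 * T : ℝ) : ℂ)) := by
      rw [← c1]
      push_cast
      field_simp
    have e2 : e' = -((((1 + 2 * z) * hP'.eigenvalues k + hQ'.eigenvalues l : ℝ) : ℂ) * d' /
        ((2 * T : ℝ) : ℂ)) := by
      rw [← c2]
      push_cast
      field_simp
    have e3 : (starRingEnd ℂ) d * (starRingEnd ℂ) d' *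
        ((hP.eigenvalues i : ℂ) * d * ((hP'.eigenvalues k : ℂ) * d') - (T : ℂ) * (e * e')) =
        ((((hP.eigenvalues i * hP'.eigenvalues k - ((1 + 2 * z) * hP.eigenvalues i +
          hQ.eigenvalues j) * ((1 + 2 * z) * hP'.eigenvalues k + hQ'.eigenvalues l) / (4 * T)) *
          (Complex.normSq d * Complex.normSq d')) : ℝ) : ℂ) := by
      rw [e1, e2]
      push_cast
      rw [Complex.normSq_eq_conj_mul_self, Complex.normSq_eq_conj_mul_self]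
      field_simp
      ring
    rw [e3, Complex.ofReal_re]
    exact mul_nonpos_of_nonpos_of_nonneg (sign_scalar h0 hi hk hj hl)
      (mul_nonneg (Complex.normSq_nonneg _) (Complex.normSq_nonneg _))

/-! ### the theorem -/

theorem rel_PQ (A D : Matrix ι ι ℂ) (z : ℝ) :
    ((1 + 2 * z : ℝ) : ℂ) • (D - (z : ℂ) • (A - D)) + (-D - (z : ℂ) • (A + D)) =
      -(((2 * (z * (1 + z)) : ℝ) : ℂ) • (A - D)) := by
  ext i j
  simp only [Matrix.add_apply, Matrix.sub_apply, Matrix.neg_apply, Matrix.smul_apply, smul_eq_mul]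
  push_cast
  ring

theorem herm_smul {A : Matrix ι ι ℂ} (hA : A.IsHermitian) (z : ℝ) :
    ((z : ℂ) • A).IsHermitian := by
  unfold Matrix.IsHermitian
  rw [Matrix.conjTranspose_smul, hA.eq]
  simp

theorem herm_P {A D : Matrix ι ι ℂ} (hA : A.IsHermitian) (hD : D.IsHermitian) (z : ℝ) :
    (D - (z : ℂ) • (A - D)).IsHermitian := hD.sub (herm_smul (hA.sub hD) z)

theorem herm_Q {A D : Matrix ι ι ℂ} (hA : A.IsHermitian) (hD : D.IsHermitian) (z : ℝ) :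
    (-D - (z : ℂ) • (A + D)).IsHermitian := hD.neg.sub (herm_smul (hA.add hD) z)

theorem herm_kron {A : Matrix ι ι ℂ} {A' : Matrix κ κ ℂ} (hA : A.IsHermitian)
    (hA' : A'.IsHermitian) : (A ⊗ₖ A').IsHermitian := by
  unfold Matrix.IsHermitian
  rw [Matrix.conjTranspose_kronecker, hA.eq, hA'.eq]

/-- one half of (K*) -/
theorem main {p : ℝ} (hp : 2 < p) (al : Al p) {A D : Matrix ι ι ℂ} {A' D' : Matrix κ κ ℂ}
    (hA : A.IsHermitian) (hD : D.IsHermitian) (hA' : A'.IsHermitian) (hD' : D'.IsHermitian)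
    {z : ℝ} (hz : 0 ≤ z) :
    trF (INE.pp p) (D - (z : ℂ) • (A - D)) * trF (INE.pp p) (D' - (z : ℂ) • (A' - D')) +
      trF (INE.pp p) (-D - (z : ℂ) • (A + D)) * trF (INE.pp p) (-D' - (z : ℂ) • (A' + D')) -
      p * (z * (1 + z)) *
        (((cfc (fun x : ℝ => (max x 0) ^ (p - 1)) (D - (z : ℂ) • (A - D)) * (A - D)).trace).re *
          ((cfc (fun x : ℝ => (max x 0) ^ (p - 1)) (D' - (z : ℂ) • (A' - D')) *
            (A' - D')).trace).re +
        ((cfc (fun x : ℝ => (max x 0) ^ (p - 1)) (-D - (z : ℂ) • (A + D)) * (A + D)).trace).re *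
          ((cfc (fun x : ℝ => (max x 0) ^ (p - 1)) (-D' - (z : ℂ) • (A' + D')) *
            (A' + D')).trace).re) ≤
      trF (INE.pp p) (D ⊗ₖ D' - (z : ℂ) • (A ⊗ₖ A' - D ⊗ₖ D')) := by
  have hp1 : 1 < p := by linarith
  have hP := herm_P hA hD z
  have hQ := herm_Q hA hD z
  have hP' := herm_P hA' hD' z
  have hQ' := herm_Q hA' hD' z
  have hX : (D ⊗ₖ D' - (z : ℂ) • (A ⊗ₖ A' - D ⊗ₖ D')).IsHermitian :=
    (herm_kron hD hD').sub (herm_smul ((herm_kron hA hA').sub (herm_kron hD hD')) z)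
  have h1 := al (ι × κ) (D ⊗ₖ D' - (z : ℂ) • (A ⊗ₖ A' - D ⊗ₖ D'))
    ((hP.eigenvectorUnitary : Matrix ι ι ℂ) ⊗ₖ (hP'.eigenvectorUnitary : Matrix κ κ ℂ))
    ((hQ.eigenvectorUnitary : Matrix ι ι ℂ) ⊗ₖ (hQ'.eigenvectorUnitary : Matrix κ κ ℂ)) hX
    (kron_one (spec hP).1 (spec hP').1) (kron_one (spec hQ).1 (spec hQ').1)
    (fun x => max (hP.eigenvalues x.1) 0 * max (hP'.eigenvalues x.2) 0)
    (fun x => max (hQ.eigenvalues x.1) 0 * max (hQ'.eigenvalues x.2) 0)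
    (fun x => mul_nonneg (le_max_right _ _) (le_max_right _ _))
    (fun x => mul_nonneg (le_max_right _ _) (le_max_right _ _)) ?_
  · have s1 := sum_entries hp1 hP hP' (hA.sub hD) (N' := A' - D') (z * (1 + z))
    have s2 := sum_entries hp1 hQ hQ' (hA.add hD) (N' := A' + D') (z * (1 + z))
    rw [← X_eq_P] at s1
    rw [← X_eq_Q] at s2
    calc _ = (trF (INE.pp p) (D - (z : ℂ) • (A - D)) * trF (INE.pp p) (D' - (z : ℂ) • (A' - D')) -
          p * (z * (1 + z)) *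
          (((cfc (fun x : ℝ => (max x 0) ^ (p - 1)) (D - (z : ℂ) • (A - D)) * (A - D)).trace).re *
          ((cfc (fun x : ℝ => (max x 0) ^ (p - 1)) (D' - (z : ℂ) • (A' - D')) *
            (A' - D')).trace).re)) +
          (trF (INE.pp p) (-D - (z : ℂ) • (A + D)) * trF (INE.pp p) (-D' - (z : ℂ) • (A' + D')) -
          p * (z * (1 + z)) *
          (((cfc (fun x : ℝ => (max x 0) ^ (p - 1)) (-D - (z : ℂ) • (A + D)) * (A + D)).trace).re *
          ((cfc (fun x : ℝ => (max x 0) ^ (p - 1)) (-D' - (z : ℂ) • (A' + D')) *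
            (A' + D')).trace).re)) := by ring
      _ ≤ _ := by
        rw [← s1, ← s2]
        exact h1
  · rintro ⟨i, k⟩ ⟨j, l⟩ hr hs
    have h3 := mx_mul_mx hr
    have h4 := mx_mul_mx hs
    rw [X_eq_P]
    exact sign_rule hP hQ hP' hQ' hz (rel_PQ A D z) (rel_PQ A' D' z) i j k l h3.1 h3.2 h4.1 h4.2

end Pool.Agent.Lib_helper28.KS
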