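import Pool.Agent.Lib_helper28.KS.B
import Pool.Agent.Lib_helper52.KS.C
import Pool.Agent.Lib_helper47.MOD.Defs

/-!
# (K*): `τ_V τ_W - (z (1 + z) / p) η_V η_W ≤ τ_{V ⊗ W}`
-/

set_option autoImplicit false

open scoped BigOperators ComplexOrder Kronecker MatrixOrder Topology
open MeasureTheory Set Matrix Filter

namespace Pool.Agent.Lib_helper28.KS

open Pool.Agent.RC

variable {ι κ : Type} [Fintype ι] [DecidableEq ι] [Fintype κ] [DecidableEq κ]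

theorem al_all {p : ℝ} (hp : 2 < p) : Al p := by
  intro k _ _ X F H hX hF hH r s hr hs h
  exact al hX hF hH r s hr hs p hp h

theorem kron_neg_right (A : Matrix ι ι ℂ) (B : Matrix κ κ ℂ) : A ⊗ₖ (-B) = -(A ⊗ₖ B) := by
  ext ⟨i, k⟩ ⟨j, l⟩
  simp [Matrix.kroneckerMap_apply]

/-- (K*) -/
theorem kstar {p : ℝ} (hp : 2 < p) {A₁ D₁ : Matrix ι ι ℂ} {A₂ D₂ : Matrix κ κ ℂ}
    (hA₁ : A₁.IsHermitian) (hD₁ : D₁.IsHermitian) (hA₂ : A₂.IsHermitian) (hD₂ : D₂.IsHermitian)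
    {z : ℝ} (hz : 0 ≤ z) :
    tau p A₁ D₁ z * tau p A₂ D₂ z - z * (1 + z) / p * (eta p A₁ D₁ z * eta p A₂ D₂ z) ≤
      tau p (A₁ ⊗ₖ A₂) (D₁ ⊗ₖ D₂) z := by
  have hp0 : p ≠ 0 := by linarith
  have h1 := main hp (al_all hp) hA₁ hD₁ hA₂ hD₂ hz
  have h2 := main hp (al_all hp) hA₁ hD₁ hA₂ hD₂.neg hz
  rw [sub_neg_eq_add, neg_neg, ← sub_eq_add_neg, kron_neg_right, sub_neg_eq_add] at h2
  unfold tau eta
  have e : ∀ x y : ℝ, z * (1 + z) / p * (p * x * (p * y)) = p * (z * (1 + z)) * (x * y) := by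
    intro x y
    field_simp
  rw [e]
  change _ ≤ _ at h1
  have e1 : gp p = fun x : ℝ => (max x 0) ^ (p - 1) := rfl
  rw [e1]
  linarith [h1, h2]

end Pool.Agent.Lib_helper28.KS
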